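import Mathlib
import Pool.Agent.H692.FR.Main

/-!
# Exact triangles: the induction over the rounds
-/

set_option autoImplicit false

namespace Pool.Agent.H692.ET

open Finset Filter Topology
open Pool.Agent.N575.LDT (Edge Tri Wts wt tendsto_line)
open Pool.Agent.H692.FR (LT NS Q Cond cell ans cell_open mem_cell ans_cell ne_of_cell exists_gen dot dot_ind
  ind one_off wt_one_off wt_one_off_pos dot_smul stepB wt_const eventually_wt_pos isOpen_pos
  fixed stepA eventually_dot_ne wt_add_smul')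

variable {n : ℕ}

/-! ### states -/

/-- What is known about the rest `R` of the tree: it is reached from all weights in `U`, where the
signs of the weights of the triangles in `D` are fixed; `r` rounds and `T` tests are left, `q` of
them with forms which are not multiples of the weight of a triangle. -/
structure St (R : LT n) (T q r : ℕ) (U : Set (Wts n)) (D : Set (Tri n)) : Prop where
  isOpen : IsOpen U
  yes : ∀ u ∈ U, (∀ s, 0 < wt u s) → R.Gen u →
    R.run u = true ∧ R.rounds u ≤ r ∧ R.tests u ≤ T ∧ R.nst u ≤ q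
  no : ∀ u ∈ U, ∀ τ, τ ∉ D → wt u τ = 0 → (∀ s, s ≠ τ → 0 < wt u s) → R.Gen u → R.run u = false

theorem St.exists_yes {R : LT n} {T q r : ℕ} {U : Set (Wts n)} {D : Set (Tri n)}
    (h : St R T q r U D) {u : Wts n} (hu : u ∈ U) (hu0 : ∀ s, 0 ≤ wt u s) :
    ∃ u' ∈ U, (∀ s, 0 < wt u' s) ∧ R.Gen u' := by
  have h1 : ∀ᶠ ε in 𝓝[>] (0 : ℝ), u + ε • (fun _ => (1 : ℝ) : Wts n) ∈ U :=
    (tendsto_line u _).eventually (h.isOpen.mem_nhds hu)
  obtain ⟨ε, h2, h3⟩ := (h1.and (eventually_wt_pos (v := fun _ => (1 : ℝ)) hu0)).exists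
  obtain ⟨u', hu', h4⟩ := exists_gen R (h.isOpen.inter isOpen_pos)
    ⟨_, h2, fun s => h3 s fun _ => by rw [wt_const]; norm_num⟩
  exact ⟨u', hu'.1, hu'.2, h4⟩

theorem St.bound {m : ℕ} {L : Fin m → Edge n → ℝ} {σ : Fin m → SignType}
    {next : (Fin m → SignType) → LT n} {T q r : ℕ} {U : Set (Wts n)} {D : Set (Tri n)}
    (h : St (.round m L σ next) T q r U D) {u : Wts n} (hu : u ∈ U) (hu0 : ∀ s, 0 ≤ wt u s) :
    1 ≤ r ∧ m ≤ T ∧ ∀ I : Finset (Fin m), (∀ i ∈ I, NS (L i)) → I.card ≤ q := by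
  classical
  obtain ⟨u', hu', h1, h2⟩ := h.exists_yes hu hu0
  have h3 := h.yes u' hu' h1 h2
  unfold LT.rounds LT.tests LT.nst at h3
  refine ⟨by omega, by omega, fun I hI => ?_⟩
  have h4 : I.card ≤ (Finset.univ.filter fun i => NS (L i)).card :=
    card_le_card fun i hi => mem_filter.2 ⟨mem_univ _, hI i hi⟩
  omega

/-- a leaf is wrong somewhere -/
theorem St.leaf {b : Bool} {T q r : ℕ} {U : Set (Wts n)} {D : Set (Tri n)}
    (h : St (.leaf b) T q r U D) {u : Wts n} (hu : u ∈ U) (hu0 : ∀ s, 0 ≤ wt u s) {f : Tri n}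
    (hf : wt u f = 0) (hfD : f ∉ D) : False := by
  obtain ⟨u', hu', h1, h2⟩ := h.exists_yes hu hu0
  have h3 := (h.yes u' hu' h1 h2).1
  set v := one_off f 0 with hv
  have h4 : ∀ᶠ ε in 𝓝[>] (0 : ℝ), u + ε • v ∈ U :=
    (tendsto_line u _).eventually (h.isOpen.mem_nhds hu)
  obtain ⟨ε, ⟨h5, h6⟩, hε⟩ := ((h4.and (eventually_wt_pos (v := v) hu0)).and
    self_mem_nhdsWithin).exists
  have hε' : 0 < ε := hε
  have h7 := h.no (u + ε • v) h5 f hfD (by
    rw [wt_add_smul', hf, hv, wt_one_off]
    ring) (fun s hs => h6 s fun _ => wt_one_off_pos f (by norm_num) hs) trivial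
  unfold LT.run at h3 h7
  rw [h3] at h7
  exact Bool.noConfusion h7

open Classical in
/-- one round -/
theorem St.step {m : ℕ} {L : Fin m → Edge n → ℝ} {σ : Fin m → SignType}
    {next : (Fin m → SignType) → LT n} {T q r : ℕ} {U : Set (Wts n)} {D : Set (Tri n)}
    (h : St (.round m L σ next) T q (r + 1) U D) {u : Wts n} (hu : u ∈ U)
    (hu0 : ∀ s, 0 ≤ wt u s) {v : Wts n} (hv0 : ∀ s, 0 ≤ wt v s)
    (hv : ∀ i, NS (L i) → dot (L i) v ≠ 0) :
    ∃ (a : Fin m → SignType) (U' : Set (Wts n)) (u' : Wts n),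
      St (next a) T q r U' (D ∪ {s | ∃ i, ∃ c : ℝ, c ≠ 0 ∧ L i = c • ind s}) ∧ u' ∈ U' ∧
      (∀ s, 0 ≤ wt u' s) ∧ ∀ s, wt u' s = 0 ↔ wt u s = 0 ∧ wt v s = 0 := by
  have h1 : ∀ᶠ ε in 𝓝[>] (0 : ℝ), u + ε • v ∈ U :=
    (tendsto_line u _).eventually (h.isOpen.mem_nhds hu)
  have h2 : ∀ᶠ ε in 𝓝[>] (0 : ℝ), ∀ i, NS (L i) → dot (L i) (u + ε • v) ≠ 0 := by
    refine eventually_all.2 fun i => ?_
    by_cases hi : NS (L i)
    · filter_upwards [eventually_dot_ne (L i) u v (Or.inr (hv i hi))] with ε h _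
      exact h
    · exact Eventually.of_forall fun ε h => absurd h hi
  obtain ⟨ε, ⟨⟨h3, h4⟩, h5⟩, hε⟩ := (((h1.and h2).and (eventually_wt_pos (v := v) hu0)).and
    self_mem_nhdsWithin).exists
  have hε' : 0 < ε := hε
  set u' := u + ε • v with hu'
  set a : Fin m → SignType := fixed L σ u' with ha
  set L' : Fin m → Edge n → ℝ := fun i => if NS (L i) then L i else 0 with hL'
  set D' : Set (Tri n) := D ∪ {s | ∃ i, ∃ c : ℝ, c ≠ 0 ∧ L i = c • ind s} with hD'
  have hL'NS : ∀ i, L' i ≠ 0 → NS (L i) ∧ L' i = L i := by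
    intro i hi
    by_cases hn : NS (L i)
    · exact ⟨hn, by simp only [hL']; rw [if_pos hn]⟩
    · simp only [hL'] at hi
      rw [if_neg hn] at hi
      exact absurd rfl hi
  -- the outcomes
  have hans : ∀ w : Wts n, w ∈ cell L' σ u' → (∀ s, s ∈ D' → 0 < wt w s) →
      ans L σ w = a := by
    intro w hw hwD
    funext i
    rw [ha]
    unfold ans fixed
    by_cases h0 : L i = 0
    · rw [if_pos h0, if_pos h0]
    · rw [if_neg h0, if_neg h0]
      by_cases hs : ∃ c : ℝ, ∃ s, c ≠ 0 ∧ L i = c • ind s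
      · rw [dif_pos hs]
        obtain ⟨s, hc0, hLs⟩ := hs.choose_spec
        have h6 : 0 < wt w s := hwD s (Or.inr ⟨i, _, hc0, hLs⟩)
        conv_lhs => rw [hLs]
        rw [dot_smul, dot_ind, sign_mul, sign_pos h6, mul_one]
      · rw [dif_neg hs]
        have hn : NS (L i) := by
          refine ⟨h0, fun s c hc => ?_⟩
          by_cases hc0 : c = 0
          · rw [hc0, zero_smul] at hc
            exact h0 hc
          · exact hs ⟨c, s, hc0, hc⟩
        have h6 : L' i = L i := by simp only [hL']; rw [if_pos hn]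
        have h7 := congrFun (ans_cell hw) i
        unfold ans at h7
        rw [h6, if_neg h0, if_neg h0] at h7
        exact h7
  have hgen : ∀ w : Wts n, w ∈ cell L' σ u' → (∀ s, s ∈ D' → 0 < wt w s) →
      ∀ i, L i ≠ 0 → dot (L i) w ≠ 0 := by
    intro w hw hwD i h0
    by_cases hs : ∃ c : ℝ, ∃ s, c ≠ 0 ∧ L i = c • ind s
    · obtain ⟨c, s, hc0, hLs⟩ := hs
      rw [hLs, dot_smul, dot_ind]
      exact mul_ne_zero hc0 (hwD s (Or.inr ⟨i, c, hc0, hLs⟩)).ne'
    · have hn : NS (L i) := by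
        refine ⟨h0, fun s c hc => ?_⟩
        by_cases hc0 : c = 0
        · rw [hc0, zero_smul] at hc
          exact h0 hc
        · exact hs ⟨c, s, hc0, hc⟩
      have h6 : L' i = L i := by simp only [hL']; rw [if_pos hn]
      have h7 := ne_of_cell hw i (by rw [h6]; exact h0)
      rwa [h6] at h7
  refine ⟨a, U ∩ cell L' σ u', u', ⟨h.isOpen.inter (cell_open L' σ u'), ?_, ?_⟩, ⟨h3, ?_⟩, ?_, ?_⟩
  · intro w hw hw0 hG
    have h6 := hans w hw.2 (fun s _ => hw0 s)
    have h7 : (LT.round m L σ next).Gen w := ⟨hgen w hw.2 fun s _ => hw0 s, by rw [h6]; exact hG⟩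
    have h8 := h.yes w hw.1 hw0 h7
    unfold LT.run LT.rounds LT.tests LT.nst at h8
    rw [h6] at h8
    exact ⟨h8.1, by omega, by omega, by omega⟩
  · intro w hw τ hτ hwτ hw0 hG
    have h9 : ∀ s, s ∈ D' → 0 < wt w s := by
      intro s hs
      refine hw0 s ?_
      rintro rfl
      exact hτ hs
    have h6 := hans w hw.2 h9
    have h7 : (LT.round m L σ next).Gen w := ⟨hgen w hw.2 h9, by rw [h6]; exact hG⟩
    have h8 := h.no w hw.1 τ (fun h => hτ (Or.inl h)) hwτ hw0 h7
    unfold LT.run at h8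
    rw [h6] at h8
    exact h8
  · refine mem_cell fun i hi => ?_
    obtain ⟨h6, h7⟩ := hL'NS i hi
    rw [h7]
    exact h4 i h6
  · intro s
    rw [hu', wt_add_smul']
    have := hu0 s
    have := hv0 s
    positivity
  · intro s
    rw [hu', wt_add_smul', add_eq_zero_iff_of_nonneg (hu0 s) (mul_nonneg hε'.le (hv0 s)),
      mul_eq_zero, or_iff_right hε'.ne']

/-! ### the induction -/

theorem main {T q x : ℕ} (hx : 0 < x) : ∀ (r : ℕ) (R : LT n) (U : Set (Wts n))
    (D : Set (Tri n)) (u : Wts n) (F : Finset (Tri n)) (N ρ : ℝ), St R T q r U D → u ∈ U →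
    (∀ s, 0 ≤ wt u s) → (∀ s ∈ F, wt u s = 0 ∧ s ∉ D) → 0 < ρ → Cond T q x r N ρ →
    N ≤ F.card → (Q F : ℝ) ≤ ρ * F.card → False := by
  classical
  intro r
  induction r with
  | zero =>
    intro R U D u F N ρ h hu hu0 hF hρ hC hN hQ
    have hFpos : (0 : ℝ) < F.card := lt_of_lt_of_le (Cond.pos hx hC) hN
    obtain ⟨f, hf⟩ := card_pos.1 (by exact_mod_cast hFpos : 0 < F.card)
    cases R with
    | leaf b => exact h.leaf hu hu0 (hF f hf).1 (hF f hf).2
    | round m L σ next =>
      have := (h.bound hu hu0).1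
      omega
  | succ r ih =>
    intro R U D u F N ρ h hu hu0 hF hρ hC hN hQ
    have hFpos : (0 : ℝ) < F.card := lt_of_lt_of_le (Cond.pos hx hC) hN
    cases R with
    | leaf b =>
      obtain ⟨f, hf⟩ := card_pos.1 (by exact_mod_cast hFpos : 0 < F.card)
      exact h.leaf hu hu0 (hF f hf).1 (hF f hf).2
    | round m L σ next =>
      have hm := (h.bound hu hu0).2.1
      have hLq := (h.bound hu hu0).2.2
      have hm' : (m : ℝ) ≤ T := by exact_mod_cast hm
      cases r with
      | zero =>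
        have hC' : (T : ℝ) < N := hC
        have h1 : (m : ℝ) < F.card := by linarith
        obtain ⟨f, hf, v, hv0, hvs, hvL, hfL⟩ := stepB F L (by exact_mod_cast h1)
        have hv : ∀ s, 0 ≤ wt v s := by
          intro s
          by_cases hs : s = f
          · rw [hs, hv0]
          · exact (hvs s hs).le
        obtain ⟨a, U', u', h2, h3, h4, h5⟩ := h.step hu hu0 hv (fun i hi => hvL i hi.1)
        refine ih (next a) U' _ u' {f} 1 1 h2 h3 h4 ?_ one_pos one_pos (by simp) ?_
        · intro s hs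
          rw [mem_singleton] at hs
          subst hs
          refine ⟨(h5 s).2 ⟨(hF s hf).1, hv0⟩, ?_⟩
          rintro (h6 | ⟨i, c, hc, h6⟩)
          · exact (hF s hf).2 h6
          · exact hfL i c hc h6
        · have : Q ({f} : Finset (Tri n)) = 0 := by
            unfold Q
            rw [card_eq_zero, filter_eq_empty_iff]
            intro p hp
            rw [mem_product, mem_singleton, mem_singleton] at hp
            rw [hp.1, hp.2]
            simp
          rw [this]
          simp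
      | succ k =>
        obtain ⟨hC1, hC2, hC3⟩ := hC
        set J : Finset (Tri n) := univ.filter fun s => ∃ i, ∃ c : ℝ, c ≠ 0 ∧ L i = c • ind s
          with hJ
        have hJm : J.card ≤ m := by
          by_contra hc
          push Not at hc
          obtain ⟨f, hf, -, -, -, -, h1⟩ := stepB J L hc
          rw [hJ, mem_filter] at hf
          obtain ⟨-, i, c, hc0, h2⟩ := hf
          exact h1 i c hc0 h2
        have hT0 : (0 : ℝ) ≤ T := Nat.cast_nonneg T
        -- the number of forms which are not multiples of the weight of a triangle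
        set q' := min q m with hq'
        have hq'q : (q' : ℝ) ≤ q := by exact_mod_cast min_le_left q m
        have hLq' : ∀ I : Finset (Fin m), (∀ i ∈ I, NS (L i)) → I.card ≤ q' := by
          intro I hI
          refine le_min (hLq I hI) ?_
          have := card_le_univ I
          rwa [Fintype.card_fin] at this
        obtain ⟨v, hv, hvL, hF'⟩ := stepA F J L hx hLq' (min_le_right q m) hρ hQ hJm
          (by linarith) (by
          refine le_trans ?_ (hC2.trans ?_)
          · exact mul_le_mul_of_nonneg_right (by linarith) hρ.le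
          · exact mul_le_mul_of_nonneg_left hN (by positivity))
        obtain ⟨a, U', u', h2, h3, h4, h5⟩ := h.step hu hu0 hv hvL
        set F' := F.filter fun s => wt v s = 0 ∧ s ∉ J with hF'def
        obtain ⟨h6, h7⟩ := hF' F' (fun s => by rw [hF'def, mem_filter])
        have hx' : (0 : ℝ) < x := by exact_mod_cast hx
        refine ih (next a) U' _ u' F' (N / (4 * x)) (4 * ρ / x) h2 h3 h4 ?_ (by positivity) hC3
          (le_trans (div_le_div_of_nonneg_right hN (by positivity)) h6) h7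
        intro s hs
        rw [hF'def, mem_filter] at hs
        refine ⟨(h5 s).2 ⟨(hF s hs.1).1, hs.2.1⟩, ?_⟩
        rintro (h8 | ⟨i, c, hc, h8⟩)
        · exact (hF s hs.1).2 h8
        · apply hs.2.2
          rw [hJ, mem_filter]
          exact ⟨mem_univ _, i, c, hc, h8⟩


end Pool.Agent.H692.ET
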