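import Mathlib
import Pool.Agent.H692.ET.Main

/-!
# Exact triangles: the lower bound for trees with few rounds
-/

set_option autoImplicit false

namespace Pool.Agent.H692.ET

open Finset Filter Topology
open Pool.Agent.N575.LDT (Edge Tri Wts wt pot pot_continuous tendsto_line wt_add_smul)
open Pool.Agent.H692.FR (RTree red Good good Q Q_univ Cond cond_of)

variable {n : ℕ}

/-- all weights are small -/
def Small (δ : ℝ) (w : Wts n) : Prop := ∀ e, |w e| < δ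

theorem tradeoff {β : Type} (φ : β → Bool) (t : RTree n β) (hn : 1 ≤ n) {δ : ℝ} (hδ : 0 < δ)
    {r T q x : ℕ} (hr : 1 ≤ r) (hx : 1 ≤ x)
    (hyes : ∀ w : Wts n, Small δ w → (∀ s, 0 < wt w s) →
      φ (t.run w) = true ∧ t.rounds w ≤ r ∧ t.comparisons w + t.tests w ≤ T ∧ t.tests w ≤ q)
    (hno : ∀ w : Wts n, Small δ w → ∀ τ, wt w τ = 0 → (∀ s, s ≠ τ → 0 < wt w s) →
      φ (t.run w) = false) :
    (n : ℝ) ^ 3 ≤ 16 * (4 * x) ^ (r - 1) * T ∨ (x : ℝ) ^ 2 * n ^ 2 ≤ 12 * 16 ^ r * q := by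
  classical
  by_contra! hcon
  obtain ⟨hc1, hc2⟩ := hcon
  have hpot : pot (0 : Fin 3 × Fin n → ℝ) = (0 : Wts n) := by
    funext e
    obtain ⟨c, i, j⟩ := e
    unfold pot
    fin_cases c <;> simp
  have hopen : ∀ᶠ x in 𝓝 (0 : Fin 3 × Fin n → ℝ), ∀ᶠ w in 𝓝 (pot x : Wts n), Small δ w := by
    have h1 : ∀ᶠ w in 𝓝 (pot (0 : Fin 3 × Fin n → ℝ) : Wts n), Small δ w := by
      unfold Small
      refine eventually_all.2 fun e => ?_
      have h2 : Continuous fun w : Wts n => |w e| := (continuous_apply e).abs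
      refine h2.continuousAt.eventually (gt_mem_nhds ?_)
      rw [hpot]
      simpa using hδ
    exact pot_continuous.continuousAt.eventually (eventually_eventually_nhds.2 h1)
  obtain ⟨U, hU, hUo, hUx⟩ := eventually_nhds_iff.1 hopen
  obtain ⟨x₀, hxU, hgood⟩ : ∃ x₀, x₀ ∈ U ∧ Good φ t x₀ := by
    have hd : Dense {x | Good φ t x} := dense_of_mem_residual (good φ t)
    obtain ⟨x₀, h1, h2⟩ := hd.inter_open_nonempty U hUo ⟨0, hUx⟩
    exact ⟨x₀, h1, h2⟩
  have hnear := hU x₀ hxU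
  have hev : ∀ u : Wts n, (red φ t x₀).Gen u → ∃ ε : ℝ, 0 < ε ∧ Small δ (pot x₀ + ε • u) ∧
      φ (t.run (pot x₀ + ε • u)) = (red φ t x₀).run u ∧
      (red φ t x₀).rounds u = t.rounds (pot x₀ + ε • u) ∧
      (red φ t x₀).tests u = t.comparisons (pot x₀ + ε • u) + t.tests (pot x₀ + ε • u) ∧
      (red φ t x₀).nst u ≤ t.tests (pot x₀ + ε • u) := by
    intro u hu
    obtain ⟨ε, ⟨h2, h3⟩, h4⟩ :=
      (((hgood u hu).and ((tendsto_line (pot x₀) u).eventually hnear)).and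
        self_mem_nhdsWithin).exists
    exact ⟨ε, h4, h3, h2⟩
  have hSt : St (red φ t x₀) T q r Set.univ ∅ := by
    refine ⟨isOpen_univ, ?_, ?_⟩
    · intro u _ hu hG
      obtain ⟨ε, hε, h1, h2, h3, h4, h5⟩ := hev u hG
      have h6 := hyes _ h1 (by
        intro s
        rw [wt_add_smul]
        exact mul_pos hε (hu s))
      rw [← h2, h3, h4]
      exact ⟨h6.1, h6.2.1, h6.2.2.1, h5.trans h6.2.2.2⟩
    · intro u _ τ _ hτ hu hG
      obtain ⟨ε, hε, h1, h2, -⟩ := hev u hG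
      have h6 := hno _ h1 τ (by rw [wt_add_smul, hτ, mul_zero]) (by
        intro s hs
        rw [wt_add_smul]
        exact mul_pos hε (hu s hs))
      rw [← h2]
      exact h6
  obtain ⟨j, rfl⟩ : ∃ j, r = j + 1 := ⟨r - 1, by omega⟩
  rw [Nat.add_sub_cancel] at hc1
  have hn' : (1 : ℝ) ≤ n := by exact_mod_cast hn
  have hcard : ((univ : Finset (Tri n)).card : ℝ) = (n : ℝ) ^ 3 := by
    rw [card_univ, Fintype.card_prod, Fintype.card_prod, Fintype.card_fin]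
    push_cast
    ring
  have hT0 : (0 : ℝ) ≤ T := Nat.cast_nonneg T
  have h4x : (0 : ℝ) ≤ (4 * x : ℝ) ^ j := by positivity
  refine main (by omega : 0 < x) (j + 1) (red φ t x₀) Set.univ ∅ 0 univ ((n : ℝ) ^ 3) (3 * n) hSt
    (Set.mem_univ _) (fun s => by unfold wt; simp) (fun s _ => ⟨by unfold wt; simp, by simp⟩)
    (by positivity) ?_ hcard.ge Q_univ
  refine cond_of (by omega : 0 < x) j _ _ (by positivity) (by positivity) ?_ ?_ ?_
  · have h1 : 64 * (q : ℝ) * (3 * n) * 16 ^ j = (12 * 16 ^ (j + 1) * q) * n := by ring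
    rw [h1]
    calc 12 * 16 ^ (j + 1) * (q : ℝ) * n ≤ (x : ℝ) ^ 2 * n ^ 2 * n :=
          mul_le_mul_of_nonneg_right hc2.le (by positivity)
      _ = x ^ 2 * n ^ 3 := by ring
  · linarith
  · have h1 : 0 ≤ (T : ℝ) * (4 * x) ^ j := by positivity
    linarith

/-- the lower bound for the number of all tests -/
theorem headline {β : Type} (φ : β → Bool) (t : RTree n β) (hn : 1 ≤ n) {δ : ℝ} (hδ : 0 < δ)
    {r T : ℕ} (hr : 1 ≤ r)
    (hyes : ∀ w : Wts n, Small δ w → (∀ s, 0 < wt w s) →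
      φ (t.run w) = true ∧ t.rounds w ≤ r ∧ t.comparisons w + t.tests w ≤ T)
    (hno : ∀ w : Wts n, Small δ w → ∀ τ, wt w τ = 0 → (∀ s, s ≠ τ → 0 < wt w s) →
      φ (t.run w) = false) :
    (n : ℝ) ^ (2 + 2 / ((r : ℝ) + 1)) ≤ 12 * 16 ^ r * T := by
  have hn' : (1 : ℝ) ≤ n := by exact_mod_cast hn
  have hn0 : (0 : ℝ) < n := by linarith
  set y : ℝ := (n : ℝ) ^ (1 / ((r : ℝ) + 1)) with hy
  have hr0 : (0 : ℝ) < (r : ℝ) + 1 := by positivity
  have hy1 : 1 ≤ y := Real.one_le_rpow hn' (by positivity)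
  have hy0 : 0 < y := by linarith
  have hyr : y ^ (r + 1) = n := by
    rw [hy, ← Real.rpow_natCast, ← Real.rpow_mul hn0.le]
    push_cast
    rw [one_div_mul_cancel hr0.ne', Real.rpow_one]
  have hmain : (n : ℝ) ^ (2 + 2 / ((r : ℝ) + 1)) = n ^ 2 * y ^ 2 := by
    rw [Real.rpow_add hn0, hy, ← Real.rpow_natCast (_ ^ _) 2, ← Real.rpow_mul hn0.le,
      ← Real.rpow_natCast (n : ℝ) 2]
    congr 2
    push_cast
    ring
  rw [hmain]
  set x : ℕ := ⌈y⌉₊ with hx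
  have hx1 : y ≤ x := Nat.le_ceil _
  have hx2 : (x : ℝ) < y + 1 := Nat.ceil_lt_add_one hy0.le
  have hx3 : (x : ℝ) ≤ 2 * y := by linarith
  have hx4 : 1 ≤ x := by
    have : (1 : ℝ) ≤ x := by linarith
    exact_mod_cast this
  have hT0 : (0 : ℝ) ≤ T := Nat.cast_nonneg T
  rcases tradeoff φ t hn hδ (q := T) hr hx4 (fun w h1 h2 => by
    have h3 := hyes w h1 h2
    exact ⟨h3.1, h3.2.1, h3.2.2, by omega⟩) hno with h | h
  · obtain ⟨j, rfl⟩ : ∃ j, r = j + 1 := ⟨r - 1, by omega⟩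
    rw [Nat.add_sub_cancel] at h
    have h1 : (4 * x : ℝ) ^ j ≤ (8 * y) ^ j := by
      refine pow_le_pow_left₀ (by positivity) (by linarith) j
    have h2 : (n : ℝ) ^ 3 = n ^ 2 * y ^ 2 * y ^ j := by
      calc (n : ℝ) ^ 3 = n ^ 2 * n := by ring
        _ = n ^ 2 * y ^ (j + 1 + 1) := by rw [hyr]
        _ = n ^ 2 * y ^ 2 * y ^ j := by ring
    have h3 : 16 * (4 * x : ℝ) ^ j * T ≤ 16 * 8 ^ j * T * y ^ j := by
      calc 16 * (4 * x : ℝ) ^ j * T ≤ 16 * (8 * y) ^ j * T := by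
            refine mul_le_mul_of_nonneg_right ?_ hT0
            linarith
        _ = 16 * 8 ^ j * T * y ^ j := by rw [mul_pow]; ring
    have h4 : (n : ℝ) ^ 2 * y ^ 2 ≤ 16 * 8 ^ j * T := by
      have h5 : (0 : ℝ) < y ^ j := by positivity
      rw [h2] at h
      exact le_of_mul_le_mul_right (h.trans h3) h5
    refine h4.trans ?_
    refine mul_le_mul_of_nonneg_right ?_ hT0
    have h6 : (8 : ℝ) ^ j ≤ 16 ^ j := pow_le_pow_left₀ (by norm_num) (by norm_num) j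
    have h7 : (0 : ℝ) < 16 ^ j := by positivity
    calc 16 * (8 : ℝ) ^ j ≤ 16 * 16 ^ j := by linarith
      _ ≤ 12 * (16 * 16 ^ j) := by linarith
      _ = 12 * 16 ^ (j + 1) := by ring
  · refine le_trans ?_ h
    have h1 : y ^ 2 ≤ (x : ℝ) ^ 2 := pow_le_pow_left₀ hy0.le hx1 2
    nlinarith [sq_nonneg (n : ℝ)]

end Pool.Agent.H692.ET
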